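import Mathlib
import Pool.Agent.Erdos456.Frec

/-! # A small common multiple of the numbers `q - 1`, `q` a prime at most `2 ^ m` -/

set_option autoImplicit false
open Finset
open scoped ENNReal

namespace Pool.Agent.Y440.LC

open Pool.Agent.Erdos456

/-- the primes of the dyadic block `j` dividing `q - 1` for a prime `q ≤ 2 ^ m` -/
noncomputable def blk (m j : ℕ) : Finset ℕ := by
  classical
  exact (Ioc (2 ^ j) (2 ^ (j + 1))).filter (fun l => l.Prime ∧ ∃ q : ℕ, q.Prime ∧ q ≤ 2 ^ m ∧ l ∣ q - 1)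

theorem blk_sub (m j : ℕ) (hj : j ≤ m) :
    blk m j ⊆ (Icc 1 (2 ^ (m - j))).biUnion
      (fun g => (Ioc (2 ^ j) (2 ^ (j + 1))).filter (fun Q => Q.Prime ∧ (g * Q + 1).Prime)) := by
  classical
  intro l hl
  unfold blk at hl
  rw [mem_filter] at hl
  obtain ⟨h1, h2, q, hq, hqm, g, hg⟩ := hl
  have hq2 := hq.two_le
  have hl0 := h2.pos
  have hgl : g * l + 1 = q := by rw [mul_comm]; omega
  have hg0 : 1 ≤ g := by
    rcases Nat.eq_zero_or_pos g with h | h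
    · rw [h, mul_zero] at hg
      omega
    · exact h
  rw [mem_biUnion]
  refine ⟨g, ?_, ?_⟩
  · rw [mem_Icc]
    refine ⟨hg0, ?_⟩
    by_contra hcon
    push Not at hcon
    have h3 : 2 ^ (m - j) * 2 ^ j ≤ g * l := Nat.mul_le_mul hcon.le (mem_Ioc.1 h1).1.le
    rw [← pow_add, Nat.sub_add_cancel hj] at h3
    omega
  · rw [mem_filter]
    exact ⟨h1, h2, by rw [hgl]; exact hq⟩

theorem sumGG : ∃ C : ℝ, 0 < C ∧ ∀ X : ℕ, ∑ g ∈ Icc 1 X, GG g ^ 2 ≤ C * X := by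
  obtain ⟨C, hC, h⟩ := sum_GG_sq_le
  refine ⟨C, hC, fun X => ?_⟩
  have h1 := h X (Nat.cast_nonneg X)
  have h2 : ∑ g ∈ Icc 1 X, ENNReal.ofReal (GG g ^ 2) ≤
      ∑' b : ℕ, (if 1 ≤ b ∧ (b : ℝ) ≤ X then ENNReal.ofReal (GG b ^ 2) else 0) := by
    refine le_trans (le_of_eq ?_) (ENNReal.sum_le_tsum (Icc 1 X))
    refine sum_congr rfl fun g hg => ?_
    rw [mem_Icc] at hg
    rw [if_pos ⟨hg.1, by exact_mod_cast hg.2⟩]
  have h3 := h2.trans h1
  rw [← ENNReal.ofReal_sum_of_nonneg (fun g _ => sq_nonneg _)] at h3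
  exact (ENNReal.ofReal_le_ofReal_iff (by positivity)).1 h3

theorem blk_card : ∃ C : ℝ, 0 < C ∧ ∀ m j : ℕ, 1 ≤ j → j ≤ m →
    ((blk m j).card : ℝ) ≤ C * 2 ^ m / (j : ℝ) ^ 2 := by
  obtain ⟨C1, hC1, h1⟩ := sieve_count
  obtain ⟨C2, hC2, h2⟩ := sumGG
  refine ⟨C1 * C2, by positivity, ?_⟩
  intro m j hj hjm
  have hj' : (0 : ℝ) < j := by exact_mod_cast hj
  have h3 : ((blk m j).card : ℝ) ≤ ∑ g ∈ Icc 1 (2 ^ (m - j)),
      (((Ioc (2 ^ j) (2 ^ (j + 1))).filter (fun Q => Q.Prime ∧ (g * Q + 1).Prime)).card : ℝ) := by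
    exact_mod_cast (card_le_card (blk_sub m j hjm)).trans card_biUnion_le
  refine h3.trans ?_
  calc _ ≤ ∑ g ∈ Icc 1 (2 ^ (m - j)), C1 * GG g ^ 2 * 2 ^ j / (j : ℝ) ^ 2 := by
        refine sum_le_sum fun g hg => h1 g j (mem_Icc.1 hg).1 hj
    _ = C1 * 2 ^ j / (j : ℝ) ^ 2 * ∑ g ∈ Icc 1 (2 ^ (m - j)), GG g ^ 2 := by
        rw [mul_sum]
        refine sum_congr rfl fun g _ => by ring
    _ ≤ C1 * 2 ^ j / (j : ℝ) ^ 2 * (C2 * ((2 ^ (m - j) : ℕ) : ℝ)) := by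
        gcongr
        exact h2 _
    _ = C1 * C2 * (2 ^ j * 2 ^ (m - j)) / (j : ℝ) ^ 2 := by push_cast; ring
    _ = C1 * C2 * 2 ^ m / (j : ℝ) ^ 2 := by rw [← pow_add, Nat.add_sub_cancel' hjm]

/-- the primes above `2 ^ (m - t)` dividing `q - 1` for a prime `q ≤ 2 ^ m` -/
noncomputable def big (m t : ℕ) : Finset ℕ := (Ico (m - t) m).biUnion (blk m)

theorem mem_big (m t l q : ℕ) (hl : l.Prime) (hq : q.Prime) (hqm : q ≤ 2 ^ m)
    (hlq : l ∣ q - 1) (h : 2 ^ (m - t) < l) : l ∈ big m t := by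
  classical
  have hq2 := hq.two_le
  have hle : l ≤ q - 1 := Nat.le_of_dvd (by omega) hlq
  have hl1 : 1 < l := hl.one_lt
  -- `2 ^ j < l ≤ 2 ^ (j + 1)` with `j + 1 = clog`
  set c := Nat.clog 2 l with hc
  have h1 : l ≤ 2 ^ c := Nat.le_pow_clog (by norm_num) l
  have hcpos : 0 < c := Nat.clog_pos (by norm_num) (by omega)
  have h2 : 2 ^ (c - 1) < l := by
    by_contra hcon
    push Not at hcon
    have := (Nat.clog_le_iff_le_pow (by norm_num : 1 < 2)).2 hcon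
    omega
  have h3 : c - 1 < m := by
    have : 2 ^ (c - 1) < 2 ^ m := by omega
    exact (Nat.pow_lt_pow_iff_right (by norm_num)).1 this
  have h4 : m - t ≤ c - 1 := by
    have : 2 ^ (m - t) < 2 ^ c := by omega
    have := (Nat.pow_lt_pow_iff_right (by norm_num : 1 < 2)).1 this
    omega
  unfold big
  rw [mem_biUnion]
  refine ⟨c - 1, mem_Ico.2 ⟨h4, h3⟩, ?_⟩
  unfold blk
  rw [mem_filter, mem_Ioc]
  have h5 : c - 1 + 1 = c := by omega
  rw [h5]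
  exact ⟨⟨h2, h1⟩, hl, q, hq, hqm, hlq⟩

theorem big_prime (m t l : ℕ) (h : l ∈ big m t) : l.Prime ∧ l ≤ 2 ^ m := by
  classical
  unfold big at h
  rw [mem_biUnion] at h
  obtain ⟨j, hj, h⟩ := h
  unfold blk at h
  rw [mem_filter, mem_Ioc] at h
  refine ⟨h.2.1, h.1.2.trans ?_⟩
  exact Nat.pow_le_pow_right (by norm_num) (by have := (mem_Ico.1 hj).2; omega)

theorem big_card : ∃ C : ℝ, 0 < C ∧ ∀ m t : ℕ, 1 ≤ m → 2 * t ≤ m →
    ((big m t).card : ℝ) ≤ C * t * 2 ^ m / (m : ℝ) ^ 2 := by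
  obtain ⟨C, hC, h⟩ := blk_card
  refine ⟨4 * C, by positivity, ?_⟩
  intro m t hm ht
  have hm' : (0 : ℝ) < m := by exact_mod_cast hm
  have h1 : ((big m t).card : ℝ) ≤ ∑ j ∈ Ico (m - t) m, ((blk m j).card : ℝ) := by
    unfold big
    exact_mod_cast card_biUnion_le
  refine h1.trans ?_
  have h2 : ∀ j ∈ Ico (m - t) m, ((blk m j).card : ℝ) ≤ 4 * C * 2 ^ m / (m : ℝ) ^ 2 := by
    intro j hj
    rw [mem_Ico] at hj
    have hj1 : 1 ≤ j := by omega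
    refine (h m j hj1 hj.2.le).trans ?_
    have hj0 : (0 : ℝ) < j := by exact_mod_cast hj1
    have hjm : (m : ℝ) ≤ 2 * j := by
      have : m ≤ 2 * j := by omega
      exact_mod_cast this
    rw [div_le_div_iff₀ (by positivity) (by positivity)]
    have h3 : (m : ℝ) ^ 2 ≤ 4 * (j : ℝ) ^ 2 := by nlinarith
    have h4 : 0 ≤ C * 2 ^ m := by positivity
    nlinarith
  refine (sum_le_sum h2).trans ?_
  rw [sum_const, nsmul_eq_mul, Nat.card_Ico]
  have h5 : m - (m - t) = t := by omega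
  rw [h5]
  apply le_of_eq
  ring

/-- the common multiple -/
noncomputable def KM (m t : ℕ) : ℕ :=
  Nat.lcmUpto (Nat.sqrt (2 ^ m)) ^ 3 * Nat.lcmUpto (2 ^ (m - t)) * ∏ l ∈ big m t, l

theorem KM_pos (m t : ℕ) : 0 < KM m t := by
  unfold KM
  have h1 := Nat.lcmUpto_pos (Nat.sqrt (2 ^ m))
  have h2 := Nat.lcmUpto_pos (2 ^ (m - t))
  have h3 : 0 < ∏ l ∈ big m t, l := prod_pos fun l hl => (big_prime m t l hl).1.pos
  positivity

theorem dvd_lcmUpto (a Y : ℕ) (h1 : 1 ≤ a) (h2 : a ≤ Y) : a ∣ Nat.lcmUpto Y := by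
  unfold Nat.lcmUpto
  exact Finset.dvd_lcm (f := id) (Finset.mem_Icc.2 ⟨h1, h2⟩)

theorem dvd_KM (m t q : ℕ) (hq : q.Prime) (hqm : q ≤ 2 ^ m) : q - 1 ∣ KM m t := by
  classical
  have hq2 := hq.two_le
  rw [Nat.dvd_iff_prime_pow_dvd_dvd]
  intro l a hl hla
  rcases Nat.lt_or_ge a 2 with ha | ha
  · interval_cases a
    · simp
    · rw [pow_one] at hla ⊢
      rcases Nat.lt_or_ge (2 ^ (m - t)) l with h | h
      · unfold KM
        exact Dvd.dvd.mul_left (dvd_prod_of_mem _ (mem_big m t l q hl hq hqm hla h)) _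
      · unfold KM
        exact Dvd.dvd.mul_right (Dvd.dvd.mul_left (dvd_lcmUpto l _ hl.pos h) _) _
  · have hle : l ^ a ≤ 2 ^ m := (Nat.le_of_dvd (by omega) hla).trans (by omega)
    have hb : ∀ b, 2 * b ≤ a → l ^ b ∣ Nat.lcmUpto (Nat.sqrt (2 ^ m)) := by
      intro b hb
      apply dvd_lcmUpto _ _ (Nat.pos_of_ne_zero (pow_ne_zero _ hl.ne_zero))
      rw [Nat.le_sqrt]
      calc l ^ b * l ^ b = l ^ (2 * b) := by rw [← pow_add]; congr 1; ring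
        _ ≤ l ^ a := Nat.pow_le_pow_right hl.pos hb
        _ ≤ 2 ^ m := hle
    have h1 : l ^ a ∣ Nat.lcmUpto (Nat.sqrt (2 ^ m)) ^ 3 := by
      have e : a = a / 2 + (a / 2 + (a - 2 * (a / 2))) := by omega
      have c1 := hb (a / 2) (by omega)
      have c2 := hb (a - 2 * (a / 2)) (by omega)
      have h3 : Nat.lcmUpto (Nat.sqrt (2 ^ m)) ^ 3 = Nat.lcmUpto (Nat.sqrt (2 ^ m)) *
        (Nat.lcmUpto (Nat.sqrt (2 ^ m)) * Nat.lcmUpto (Nat.sqrt (2 ^ m))) := by ring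
      rw [e, pow_add, pow_add, h3]
      exact mul_dvd_mul c1 (mul_dvd_mul c1 c2)
    unfold KM
    exact Dvd.dvd.mul_right (Dvd.dvd.mul_right h1 _) _

end Pool.Agent.Y440.LC
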