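import Pool.Agent.Y440.LC.Lcm

/-! # The logarithm of the common multiple -/

set_option autoImplicit false
open Finset

namespace Pool.Agent.Y440.LC

theorem log_lcmUpto_le (Y : ℕ) : Real.log ((Nat.lcmUpto Y : ℕ) : ℝ) ≤ 6 * Y := by
  rw [← Chebyshev.psi_eq_log_lcmUpto]
  have h1 := Chebyshev.psi_le_const_mul_self (x := (Y : ℝ)) (by positivity)
  have h4 : Real.log 4 ≤ 2 := by
    have : Real.log 4 = 2 * Real.log 2 := by
      rw [show (4 : ℝ) = 2 ^ 2 by norm_num, Real.log_pow]; norm_num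
    rw [this]
    have := Real.log_two_lt_d9
    linarith
  have h5 : (0 : ℝ) ≤ Y := Nat.cast_nonneg Y
  calc Chebyshev.psi (Y : ℝ) ≤ (Real.log 4 + 4) * Y := h1
    _ ≤ 6 * Y := by
      apply mul_le_mul_of_nonneg_right _ h5
      linarith

theorem sq_le_pow (m : ℕ) : m ^ 2 ≤ 4 * 2 ^ m := by
  have h1 : m / 2 < 2 ^ (m / 2) := Nat.lt_two_pow_self
  have h2 : m ≤ 2 * 2 ^ (m / 2) := by omega
  calc m ^ 2 ≤ (2 * 2 ^ (m / 2)) ^ 2 := Nat.pow_le_pow_left h2 2
    _ = 4 * 2 ^ (m / 2 * 2) := by rw [mul_pow, ← pow_mul]; norm_num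
    _ ≤ 4 * 2 ^ m := Nat.mul_le_mul_left _ (Nat.pow_le_pow_right (by norm_num) (Nat.div_mul_le_self m 2))

theorem two_mul_le_two_pow (t : ℕ) (ht : 1 ≤ t) : 2 * t ≤ 2 ^ t := by
  induction t, ht using Nat.le_induction with
  | base => norm_num
  | succ t ht ih =>
    rw [pow_succ]
    omega

/-- a common multiple `K` of the numbers `q - 1` with `log K ≤ C 2 ^ m log m / m` -/
theorem exists_K : ∃ C : ℝ, 0 < C ∧ ∀ m : ℕ, 2 ≤ m → ∃ K : ℕ, 0 < K ∧
    (∀ q : ℕ, q.Prime → q ≤ 2 ^ m → q - 1 ∣ K) ∧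
    Real.log K ≤ C * 2 ^ m * (Real.log m / m) := by
  obtain ⟨C, hC, hbig⟩ := big_card
  have hl2 : (0 : ℝ) < Real.log 2 := Real.log_pos (by norm_num)
  refine ⟨84 / Real.log 2 + C, by positivity, ?_⟩
  intro m hm
  have hm0 : (0 : ℝ) < m := by exact_mod_cast (by omega : 0 < m)
  set t := Nat.log 2 m with ht
  have ht1 : 2 ^ t ≤ m := Nat.pow_log_le_self 2 (by omega)
  have ht2 : m < 2 ^ (t + 1) := Nat.lt_pow_succ_log_self (by norm_num) m
  have ht0 : 1 ≤ t := by
    by_contra hcon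
    have h0 : t = 0 := by omega
    rw [h0] at ht2
    omega
  have h2t : 2 * t ≤ m := (two_mul_le_two_pow t ht0).trans ht1
  refine ⟨KM m t, KM_pos m t, fun q hq hqm => dvd_KM m t q hq hqm, ?_⟩
  have hlm : Real.log 2 ≤ Real.log m := Real.log_le_log (by norm_num) (by exact_mod_cast hm)
  -- the three parts
  have p1 := Nat.lcmUpto_pos (Nat.sqrt (2 ^ m))
  have p2 := Nat.lcmUpto_pos (2 ^ (m - t))
  have p3 : 0 < ∏ l ∈ big m t, l := prod_pos fun l hl => (big_prime m t l hl).1.pos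
  have p1' : (0 : ℝ) < (Nat.lcmUpto (Nat.sqrt (2 ^ m)) : ℕ) := by exact_mod_cast p1
  have p2' : (0 : ℝ) < (Nat.lcmUpto (2 ^ (m - t)) : ℕ) := by exact_mod_cast p2
  have p3' : (0 : ℝ) < ((∏ l ∈ big m t, l : ℕ) : ℝ) := by exact_mod_cast p3
  have hlog : Real.log (KM m t : ℕ) = 3 * Real.log (Nat.lcmUpto (Nat.sqrt (2 ^ m)) : ℕ) +
      Real.log (Nat.lcmUpto (2 ^ (m - t)) : ℕ) + Real.log ((∏ l ∈ big m t, l : ℕ) : ℝ) := by
    unfold KM
    rw [Nat.cast_mul, Nat.cast_mul, Nat.cast_pow,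
      Real.log_mul (by positivity) p3'.ne', Real.log_mul (by positivity) p2'.ne', Real.log_pow]
    norm_num
  have a1 : Real.log (Nat.lcmUpto (Nat.sqrt (2 ^ m)) : ℕ) ≤ 24 * (2 ^ m / m) := by
    refine (log_lcmUpto_le _).trans ?_
    have h1 : Nat.sqrt (2 ^ m) * Nat.sqrt (2 ^ m) ≤ 2 ^ m := Nat.sqrt_le _
    have h2 : Nat.sqrt (2 ^ m) * m ≤ 4 * 2 ^ m := by
      have h3 := sq_le_pow m
      have h4 : (Nat.sqrt (2 ^ m) * m) ^ 2 ≤ (4 * 2 ^ m) ^ 2 := by
        calc (Nat.sqrt (2 ^ m) * m) ^ 2 = (Nat.sqrt (2 ^ m) * Nat.sqrt (2 ^ m)) * m ^ 2 := by ring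
          _ ≤ 2 ^ m * (4 * 2 ^ m) := Nat.mul_le_mul h1 h3
          _ ≤ (4 * 2 ^ m) ^ 2 := by nlinarith [Nat.zero_le (2 ^ m * 2 ^ m)]
      exact (Nat.pow_le_pow_iff_left (by norm_num)).1 h4
    have h5 : ((Nat.sqrt (2 ^ m) : ℕ) : ℝ) * m ≤ 4 * 2 ^ m := by exact_mod_cast h2
    rw [← mul_div_assoc, le_div_iff₀ hm0]
    nlinarith
  have a2 : Real.log (Nat.lcmUpto (2 ^ (m - t)) : ℕ) ≤ 12 * (2 ^ m / m) := by
    refine (log_lcmUpto_le _).trans ?_
    have h1 : 2 ^ (m - t) * m ≤ 2 * 2 ^ m := by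
      calc 2 ^ (m - t) * m ≤ 2 ^ (m - t) * 2 ^ (t + 1) := Nat.mul_le_mul_left _ ht2.le
        _ = 2 * 2 ^ m := by
          rw [← pow_add]
          have : m - t + (t + 1) = m + 1 := by omega
          rw [this, pow_succ]
          ring
    have h5 : ((2 ^ (m - t) : ℕ) : ℝ) * m ≤ 2 * 2 ^ m := by exact_mod_cast h1
    rw [← mul_div_assoc, le_div_iff₀ hm0]
    nlinarith
  have a3 : Real.log ((∏ l ∈ big m t, l : ℕ) : ℝ) ≤ C * 2 ^ m * (Real.log m / m) := by
    have h1 : Real.log ((∏ l ∈ big m t, l : ℕ) : ℝ) = ∑ l ∈ big m t, Real.log (l : ℝ) := by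
      rw [Nat.cast_prod, Real.log_prod]
      intro l hl
      exact_mod_cast (big_prime m t l hl).1.ne_zero
    have h2 : ∑ l ∈ big m t, Real.log (l : ℝ) ≤ ∑ _l ∈ big m t, (m * Real.log 2) := by
      refine sum_le_sum fun l hl => ?_
      have h3 := big_prime m t l hl
      have h4 : (0 : ℝ) < l := by exact_mod_cast h3.1.pos
      rw [← Real.log_pow]
      exact Real.log_le_log h4 (by exact_mod_cast h3.2)
    rw [h1]
    refine h2.trans ?_
    rw [sum_const, nsmul_eq_mul]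
    have h5 := hbig m t (by omega) h2t
    have h6 : (t : ℝ) * Real.log 2 ≤ Real.log m := by
      rw [← Real.log_pow]
      exact Real.log_le_log (by positivity) (by exact_mod_cast ht1)
    calc ((big m t).card : ℝ) * (m * Real.log 2) ≤ (C * t * 2 ^ m / (m : ℝ) ^ 2) * (m * Real.log 2) := by
          gcongr
      _ = C * 2 ^ m * ((t * Real.log 2) / m) := by
          field_simp
      _ ≤ C * 2 ^ m * (Real.log m / m) := by
          gcongr
  rw [hlog]
  have h7 : (2 : ℝ) ^ m / m ≤ 1 / Real.log 2 * (2 ^ m * (Real.log m / m)) := by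
    have e : 1 / Real.log 2 * (2 ^ m * (Real.log m / m)) = (2 ^ m / m) * (Real.log m / Real.log 2) := by
      field_simp
    rw [e]
    have h8 : 1 ≤ Real.log m / Real.log 2 := by
      rw [le_div_iff₀ hl2]
      linarith
    have h9 : (0 : ℝ) ≤ 2 ^ m / m := by positivity
    nlinarith
  have e2 : (84 / Real.log 2 + C) * 2 ^ m * (Real.log m / m) =
      84 * (1 / Real.log 2 * (2 ^ m * (Real.log m / m))) + C * 2 ^ m * (Real.log m / m) := by
    field_simp
  rw [e2]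
  linarith

/-- for all large `n` a modulus `K ≤ n ^ δ` divisible by `q - 1` for all primes
`q ≤ c log n log log n / log log log n` -/
theorem modulus (δ : ℝ) (hδ : 0 < δ) : ∃ c : ℝ, 0 < c ∧ ∃ n0 : ℕ, ∀ n : ℕ, n0 ≤ n →
    ∃ K : ℕ, 0 < K ∧ (K : ℝ) ≤ (n : ℝ) ^ δ ∧ ∀ q : ℕ, q.Prime →
      (q : ℝ) ≤ c * (Real.log n * Real.log (Real.log n) / Real.log (Real.log (Real.log n))) →
      q - 1 ∣ K := by
  obtain ⟨C, hC, hK⟩ := exists_K
  set c : ℝ := δ / C with hc
  have hc0 : 0 < c := by positivity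
  set T : ℝ := 3 + 16 / c ^ 2 with hT
  have hT3 : 3 ≤ T := by
    have : 0 ≤ 16 / c ^ 2 := by positivity
    linarith
  refine ⟨c / 2, by positivity, ⌈Real.exp (Real.exp T)⌉₊, ?_⟩
  intro n hn
  have hn' : Real.exp (Real.exp T) ≤ n := (Nat.le_ceil _).trans (by exact_mod_cast hn)
  have hn0 : (0 : ℝ) < n := (Real.exp_pos _).trans_le hn'
  set L := Real.log n with hL
  have hL1 : Real.exp T ≤ L := by
    rw [hL, Real.le_log_iff_exp_le hn0]
    exact hn'
  have hL0 : 0 < L := (Real.exp_pos _).trans_le hL1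
  set l := Real.log L with hl
  have hl1 : T ≤ l := by
    rw [hl, Real.le_log_iff_exp_le hL0]
    exact hL1
  have hl3 : 3 ≤ l := hT3.trans hl1
  have hl0 : 0 < l := by linarith
  set l2 := Real.log l with hl2
  have hl20 : 0 < l2 := Real.log_pos (by linarith)
  have he : Real.exp 1 ≤ 3 := by
    have := Real.exp_one_lt_d9
    linarith
  -- `l2 ≤ 2 √l`
  have h1 : l2 ≤ 2 * √l := by
    have h2 : Real.log (√l) ≤ √l := (Real.log_le_sub_one_of_pos (Real.sqrt_pos.2 hl0)).trans (by linarith)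
    have h3 : l2 = 2 * Real.log (√l) := by
      rw [hl2]
      conv_lhs => rw [← Real.sq_sqrt hl0.le]
      rw [Real.log_pow]
      norm_num
    rw [h3]
    linarith
  have h4 : 4 / c ≤ √l := by
    rw [Real.le_sqrt (by positivity) hl0.le]
    have : (4 / c) ^ 2 = 16 / c ^ 2 := by
      rw [div_pow]
      norm_num
    rw [this]
    linarith
  set X := c * (L * l / l2) with hX
  have hX2 : 2 * L ≤ X := by
    have h5 : 2 ≤ c * (l / l2) := by
      have h6 : √l * √l = l := Real.mul_self_sqrt hl0.le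
      have h7 : 4 ≤ c * √l := by
        have := mul_le_mul_of_nonneg_left h4 hc0.le
        rwa [mul_div_cancel₀ _ hc0.ne'] at this
      rw [← mul_div_assoc, le_div_iff₀ hl20]
      have h8 : 0 < √l := Real.sqrt_pos.2 hl0
      calc 2 * l2 ≤ 2 * (2 * √l) := by linarith
        _ = 4 * √l := by ring
        _ ≤ (c * √l) * √l := by gcongr
        _ = c * l := by rw [mul_assoc, h6]
    calc 2 * L ≤ c * (l / l2) * L := by gcongr
      _ = X := by rw [hX]; ring
  have hL20 : 20 ≤ L := by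
    have h9 : Real.exp 3 ≤ L := (Real.exp_le_exp.2 hT3).trans hL1
    have h10 : Real.exp 3 = Real.exp 1 ^ 3 := by
      rw [← Real.exp_nat_mul]
      norm_num
    have h11 := Real.exp_one_gt_d9
    have h12 : (2.7182818283 : ℝ) ^ 3 ≤ Real.exp 1 ^ 3 := by gcongr
    rw [h10] at h9
    norm_num at h12
    linarith
  have hX1 : 1 ≤ X := by linarith
  set Z := ⌊X⌋₊ with hZ
  have hZ0 : Z ≠ 0 := by
    rw [hZ]
    exact (Nat.floor_pos.2 hX1).ne'
  set m := Nat.log 2 Z with hm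
  have m1 : 2 ^ m ≤ Z := Nat.pow_log_le_self 2 hZ0
  have m2 : Z < 2 ^ (m + 1) := Nat.lt_pow_succ_log_self (by norm_num) Z
  have m1' : (2 : ℝ) ^ m ≤ X := by
    have h1 : ((2 ^ m : ℕ) : ℝ) ≤ Z := by exact_mod_cast m1
    push_cast at h1
    exact h1.trans (Nat.floor_le (by linarith))
  have m2' : X < 2 * 2 ^ m := by
    have h1 : X < Z + 1 := Nat.lt_floor_add_one X
    have h2 : ((Z + 1 : ℕ) : ℝ) ≤ ((2 ^ (m + 1) : ℕ) : ℝ) := by exact_mod_cast m2
    push_cast at h2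
    rw [pow_succ] at h2
    linarith
  have hLm : L < 2 ^ m := by linarith
  have hlm : l ≤ m := by
    have h1 : l < Real.log (2 ^ m) := Real.log_lt_log hL0 hLm
    rw [Real.log_pow] at h1
    have h2 : Real.log 2 ≤ 1 := by
      have := Real.log_two_lt_d9
      linarith
    have h3 : (m : ℝ) * Real.log 2 ≤ m * 1 := by gcongr
    linarith
  have hm3 : (3 : ℝ) ≤ m := hl3.trans hlm
  have hm2 : 2 ≤ m := by
    have : (2 : ℝ) ≤ m := by linarith
    exact_mod_cast this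
  obtain ⟨K, hK0, hKd, hKl⟩ := hK m hm2
  refine ⟨K, hK0, ?_, ?_⟩
  · have hK0' : (0 : ℝ) < K := by exact_mod_cast hK0
    rw [← Real.log_le_log_iff hK0' (by positivity), Real.log_rpow hn0]
    refine hKl.trans ?_
    have h1 : Real.log m / m ≤ l2 / l := by
      have := Real.log_div_self_antitoneOn (show l ∈ {x : ℝ | Real.exp 1 ≤ x} from by
        show Real.exp 1 ≤ l
        linarith) (show (m : ℝ) ∈ {x : ℝ | Real.exp 1 ≤ x} from by
        show Real.exp 1 ≤ (m : ℝ)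
        linarith) hlm
      exact this
    have h2 : 0 ≤ Real.log m / m := by
      have : 0 ≤ Real.log (m : ℝ) := Real.log_nonneg (by linarith)
      positivity
    calc C * 2 ^ m * (Real.log m / m) ≤ C * X * (l2 / l) := by gcongr
      _ = δ * L := by
        rw [hX, hc]
        field_simp
  · intro q hq hqX
    apply hKd q hq
    have h1 : (q : ℝ) ≤ X / 2 := by
      rw [hX]
      calc (q : ℝ) ≤ c / 2 * (L * l / l2) := hqX
        _ = c * (L * l / l2) / 2 := by ring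
    have h2 : (q : ℝ) < 2 ^ m := by linarith
    have h3 : (q : ℝ) < ((2 ^ m : ℕ) : ℝ) := by
      push_cast
      exact h2
    exact (by exact_mod_cast h3 : q < 2 ^ m).le

end Pool.Agent.Y440.LC
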