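import Pool.Agent.Y440.LC.Log
import Pool.Agent.TH696.FA.Final

/-! # Prime factors of `2 ^ (x + y) + 2 ^ (z + w) + 1` -/

set_option autoImplicit false
open Finset

namespace Pool.Agent.Y440.LC

theorem dvd_of_sub_one_dvd (q K : ℕ) (hq : q.Prime) (h : q - 1 ∣ K) : q ∣ 2 * (2 ^ K - 1) := by
  by_cases hq2 : q = 2
  · rw [hq2]; exact dvd_mul_right _ _
  · apply Dvd.dvd.mul_left
    have h2 : q ∣ 2 ^ (q - 1) - 1 := by
      have hcop2 : Nat.Coprime 2 q := (Nat.coprime_primes Nat.prime_two hq).2 (Ne.symm hq2)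
      have h3 := Nat.ModEq.pow_totient hcop2
      rw [Nat.totient_prime hq] at h3
      exact (Nat.modEq_iff_dvd' Nat.one_le_two_pow).1 h3.symm
    exact h2.trans (Nat.pow_sub_one_dvd_pow_sub_one 2 h)

theorem main1 (ε : ℝ) (hε : 0 < ε) : ∃ c : ℝ, 0 < c ∧ ∃ n0 : ℕ, ∀ n : ℕ, n0 ≤ n → Odd n →
    ∃ S : Finset (ℕ × ℕ × ℕ × ℕ), (n : ℝ) ^ (1 - ε) ≤ (S.card : ℝ) ∧
      ∀ x y z w : ℕ, (x, y, z, w) ∈ S → n = x ^ 2 + y ^ 2 + z ^ 2 + w ^ 2 ∧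
        ∀ q : ℕ, q.Prime → q ∣ 2 ^ (x + y) + 2 ^ (z + w) + 1 →
          c * (Real.log n * Real.log (Real.log n) / Real.log (Real.log (Real.log n))) < q := by
  obtain ⟨δ, hδ, n1, h⟩ := Pool.Agent.TH696.FA.main_count ε hε
  obtain ⟨c, hc, n2, hm⟩ := modulus δ hδ
  refine ⟨c, hc, n1 + n2, fun n hn hno => ?_⟩
  obtain ⟨K, hK0, hKn, hKd⟩ := hm n (by omega)
  obtain ⟨S, hS1, hS2⟩ := h n K (by omega) hno hK0 hKn
  refine ⟨S, hS1, fun x y z w hxyzw => ?_⟩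
  obtain ⟨g1, g2⟩ := hS2 x y z w hxyzw
  refine ⟨g1, fun q hq hqN => ?_⟩
  by_contra hcon
  push Not at hcon
  have h1 := dvd_of_sub_one_dvd q K hq (hKd q hq hcon)
  have h2 : Nat.Coprime q (2 * (2 ^ K - 1)) := Nat.Coprime.coprime_dvd_left hqN g2
  rw [Nat.Prime.coprime_iff_not_dvd hq] at h2
  exact h2 h1

end Pool.Agent.Y440.LC
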