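import Pool.Agent.Y440.LC.Log
import Pool.Agent.TH696.FA.Final3

/-! # Prime factors of `2 ^ x + 2 ^ y + 2 ^ z + 1` -/

set_option autoImplicit false
open Finset

namespace Pool.Agent.Y440.LC

open Pool.Agent.TH696.FA

/-- the least common multiple of the divisors of `K` with a property -/
noncomputable def KD (B : ℕ → Prop) [DecidablePred B] (K : ℕ) : ℕ := ((Nat.divisors K).filter B).lcm id

lemma KD_dvd (B : ℕ → Prop) [DecidablePred B] (K : ℕ) : KD B K ∣ K := by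
  unfold KD
  apply Finset.lcm_dvd
  intro b hb
  exact (Nat.mem_divisors.1 (Finset.mem_filter.1 hb).1).1

lemma KD_pos (B : ℕ → Prop) [DecidablePred B] (K : ℕ) (hK : 0 < K) : 0 < KD B K :=
  Nat.pos_of_dvd_of_pos (KD_dvd B K) hK

lemma KD_prime (B : ℕ → Prop) [DecidablePred B] (K N : ℕ) (hK : 0 < K)
    (hN : Nat.Coprime N (2 * (2 ^ KD B K - 1)))
    (q : ℕ) (hq : q.Prime) (hqN : q ∣ N) (hqK : q - 1 ∣ K) : q ≠ 2 ∧ ¬ B (orderOf (2 : ZMod q)) := by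
  have : Fact q.Prime := ⟨hq⟩
  have hcop : Nat.Coprime q (2 * (2 ^ KD B K - 1)) := Nat.Coprime.coprime_dvd_left hqN hN
  rw [Nat.Prime.coprime_iff_not_dvd hq] at hcop
  have hq2 : q ≠ 2 := by
    rintro rfl
    exact hcop (dvd_mul_right _ _)
  refine ⟨hq2, fun hB => hcop (Dvd.dvd.mul_left ?_ _)⟩
  have h20 : (2 : ZMod q) ≠ 0 := by
    intro h
    have h3 : ((2 : ℕ) : ZMod q) = 0 := by exact_mod_cast h
    rw [ZMod.natCast_eq_zero_iff] at h3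
    exact hq2 ((Nat.prime_dvd_prime_iff_eq hq Nat.prime_two).1 h3)
  have hdvd : orderOf (2 : ZMod q) ∣ q - 1 := ZMod.orderOf_dvd_card_sub_one h20
  have hK' : orderOf (2 : ZMod q) ∣ KD B K := by
    unfold KD
    exact Finset.dvd_lcm (f := id) (Finset.mem_filter.2 ⟨Nat.mem_divisors.2 ⟨hdvd.trans hqK, hK.ne'⟩, hB⟩)
  have h1 : (2 : ZMod q) ^ KD B K = 1 := orderOf_dvd_iff_pow_eq_one.1 hK'
  rw [← ZMod.natCast_eq_zero_iff, Nat.cast_sub Nat.one_le_two_pow]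
  push_cast
  rw [h1]; ring

theorem main2 (ε : ℝ) (hε : 0 < ε) : ∃ c : ℝ, 0 < c ∧ ∃ n0 : ℕ, ∀ n : ℕ, n0 ≤ n → Odd n →
    ∃ S : Finset (ℕ × ℕ × ℕ × ℕ), (n : ℝ) ^ (1 - ε) ≤ (S.card : ℝ) ∧
      ∀ x y z w : ℕ, (x, y, z, w) ∈ S → n = x ^ 2 + y ^ 2 + z ^ 2 + 4 * w ^ 2 ∧
        ∀ q : ℕ, q.Prime → q ∣ 2 ^ x + 2 ^ y + 2 ^ z + 1 →
          (q : ℝ) ≤ c * (Real.log n * Real.log (Real.log n) / Real.log (Real.log (Real.log n))) →
          q ≠ 2 ∧ (Exc n (orderOf (2 : ZMod q)) ∨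
            (¬ 3 ∣ n ∧ n % 32 ≠ 13 ∧ q ≠ 7 ∧ 3 ∣ orderOf (2 : ZMod q))) := by
  classical
  obtain ⟨δ1, hδ1, n2, h2⟩ := main_count2 ε hε
  obtain ⟨δ2, hδ2, n3, h3⟩ := main_count3 ε hε
  set δ := min δ1 δ2 with hδd
  have hδ : 0 < δ := lt_min hδ1 hδ2
  obtain ⟨c, hc, n4, hm⟩ := modulus δ hδ
  refine ⟨c, hc, n2 + n3 + n4 + 1, fun n hn hno => ?_⟩
  have hnr : (1 : ℝ) ≤ n := by exact_mod_cast hno.pos
  obtain ⟨K, hK0, hKn0, hKd⟩ := hm n (by omega)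
  have hKn : ∀ (B : ℕ → Prop) [DecidablePred B], ((KD B K : ℕ) : ℝ) ≤ (n : ℝ) ^ δ := by
    intro B _
    have : KD B K ≤ K := Nat.le_of_dvd hK0 (KD_dvd B K)
    have h' : ((KD B K : ℕ) : ℝ) ≤ (K : ℝ) := by exact_mod_cast this
    exact h'.trans hKn0
  have hsq : ∀ (B : ℕ → Prop) [DecidablePred B], (∀ b, B b → ¬ Exc n b) →
      ∀ l : ℕ, l.Prime → 5 ≤ l → l ^ 2 ∣ KD B K → ¬ (l : ℤ) ∣ (3 * n - 2) * (9 * n - 2) := by
    intro B _ hB l hl hl5 hlK hd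
    refine prime_pow_dvd_lcm l 2 hl ((Nat.divisors K).filter B) ?_ ?_ (by norm_num) hlK
    · intro b hb
      exact (Nat.pos_of_mem_divisors (Finset.mem_filter.1 hb).1).ne'
    · intro b hb hlb
      exact hB b (Finset.mem_filter.1 hb).2 ⟨l, hl, hl5, hlb, hd⟩
  by_cases hres : 3 ∣ n ∨ n % 32 = 13
  · obtain ⟨S, hS1, hS2⟩ := h2 n (KD (fun b => ¬ Exc n b) K) (by omega) hno hres (KD_pos _ _ hK0)
      ((hKn _).trans (Real.rpow_le_rpow_of_exponent_le hnr (min_le_left _ _))) (hsq _ (fun b hb => hb))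
    refine ⟨S, hS1, ?_⟩
    intro x y z w hxyzw
    obtain ⟨g1, g2⟩ := hS2 x y z w hxyzw
    refine ⟨g1, fun q hq hqN hqc => ?_⟩
    obtain ⟨k1, k2⟩ := KD_prime _ K _ hK0 g2 q hq hqN (hKd q hq hqc)
    exact ⟨k1, Or.inl (not_not.1 k2)⟩
  · obtain ⟨S, hS1, hS2⟩ := h3 n (KD (fun b => ¬ Exc n b ∧ ¬ 3 ∣ b) K) (by omega) hno
      (by
        have := prime_pow_dvd_lcm 3 1 Nat.prime_three ((Nat.divisors K).filter (fun b => ¬ Exc n b ∧ ¬ 3 ∣ b)) ?_ ?_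
          (by norm_num)
        · rw [pow_one] at this
          exact this
        · intro b hb
          exact (Nat.pos_of_mem_divisors (Finset.mem_filter.1 hb).1).ne'
        · intro b hb
          rw [pow_one]
          exact (Finset.mem_filter.1 hb).2.2)
      (KD_pos _ _ hK0)
      ((hKn _).trans (Real.rpow_le_rpow_of_exponent_le hnr (min_le_right _ _))) (hsq _ (fun b hb => hb.1))
    refine ⟨S, hS1, ?_⟩
    intro x y z w hxyzw
    obtain ⟨g1, g2⟩ := hS2 x y z w hxyzw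
    refine ⟨g1, fun q hq hqN hqc => ?_⟩
    have g2' : Nat.Coprime (2 ^ x + 2 ^ y + 2 ^ z + 1) (2 * (2 ^ (KD (fun b => ¬ Exc n b ∧ ¬ 3 ∣ b) K) - 1)) :=
      Nat.Coprime.coprime_dvd_right (Nat.mul_dvd_mul_right (by norm_num) _) g2
    obtain ⟨k1, k2⟩ := KD_prime _ K _ hK0 g2' q hq hqN (hKd q hq hqc)
    have k3 : q ≠ 7 := by
      rintro rfl
      have g3 : Nat.Coprime (2 ^ x + 2 ^ y + 2 ^ z + 1) 7 :=
        Nat.Coprime.coprime_dvd_right (Dvd.dvd.mul_right (by norm_num) _) g2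
      have := Nat.dvd_gcd hqN (dvd_refl 7)
      rw [g3] at this
      norm_num at this
    refine ⟨k1, ?_⟩
    by_cases hE : Exc n (orderOf (2 : ZMod q))
    · exact Or.inl hE
    · right
      refine ⟨fun h => hres (Or.inl h), fun h => hres (Or.inr h), k3, ?_⟩
      by_contra h3o
      exact k2 ⟨hE, h3o⟩

end Pool.Agent.Y440.LC
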